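import Mathlib

open Finset

namespace Pool.Agent.Results.MP_22519f_co.EarDisproof

/-- The hat game `(D, g, h)` on the digraph with arcs `E` (`E v u`: `v` sees `u`) is winnable:
there are guessing rules `σ v`, each depending only on the colours seen by `v` and naming a set of
`g v` colours, such that for every colouring `c` some vertex `v` names its own colour `c v`. -/
def Winnable {V : Type} (E : V → V → Prop) (g h : V → ℕ) : Prop :=
  ∃ σ : ∀ v, (∀ u, Fin (h u)) → Finset (Fin (h v)),
    (∀ v c, (σ v c).card = g v) ∧
    (∀ v c c', (∀ u, E v u → c u = c' u) → σ v c = σ v c') ∧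
    ∀ c, ∃ v, c v ∈ σ v c

/-- `μ_s(D)`: the largest `m > s` for which the Polish game `(D, ⋆s, ⋆m)` is winnable. -/
noncomputable def mu {V : Type} (E : V → V → Prop) (s : ℕ) : ℕ :=
  sSup {m : ℕ | s < m ∧ Winnable E (fun _ => s) (fun _ => m)}

/-- The fractional hat guessing number `sup_{s ≥ 1} μ_s(D) / s`. -/
noncomputable def muHat {V : Type} (E : V → V → Prop) : ℝ :=
  sSup {r : ℝ | ∃ s : ℕ, 1 ≤ s ∧ r = (mu E s : ℝ) / (s : ℝ)}

/-- `S` is redundant in the subdigraph induced on `W`: `S ⊆ W` and every out-neighbour `x` of `S`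
is an out-neighbour of every in-neighbour `u` of `S`. -/
def Redundant {V : Type} (E : V → V → Prop) (W S : Set V) : Prop :=
  S ⊆ W ∧ ∀ v ∈ S, ∀ x ∈ W, E v x → ∀ u ∈ W, (∃ w ∈ S, E u w) → E u x

/-- `W` is obtained from the whole vertex set by successively deleting redundant sets. -/
inductive Reduced {V : Type} (E : V → V → Prop) : Set V → Prop
  | base : Reduced E Set.univ
  | step (W S : Set V) : Reduced E W → Redundant E W S → Reduced E (W \ S)

/-- `D` is trivial: after deleting redundant sets one can reach an induced subdigraph all of whose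
strongly connected components are complete digraphs. -/
def IsTrivial {V : Type} (E : V → V → Prop) : Prop :=
  ∃ W : Set V, Reduced E W ∧ ∀ u ∈ W, ∀ v ∈ W, u ≠ v →
    Relation.ReflTransGen (fun a b => a ∈ W ∧ b ∈ W ∧ E a b) u v →
    Relation.ReflTransGen (fun a b => a ∈ W ∧ b ∈ W ∧ E a b) v u → E u v

/-- The complete digraph on `k` vertices with a directed triangle attached at the vertex `0`. -/
def Ear (k : ℕ) : Fin k ⊕ Bool → Fin k ⊕ Bool → Prop
  | .inl i, .inl j => i ≠ j
  | .inl i, .inr false => i.val = 0
  | .inr false, .inr true => True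
  | .inr true, .inl j => j.val = 0
  | _, _ => False

theorem exists_avoid {n m s : ℕ} (hm : n * s < m)
    (τ : Fin n → (Fin n → Fin m) → Finset (Fin m))
    (hc : ∀ i d, (τ i d).card = s)
    (hl : ∀ i d d', (∀ j, j ≠ i → d j = d' j) → τ i d = τ i d') :
    ∃ d, ∀ i, d i ∉ τ i d := by
  classical
  by_contra hcon
  push Not at hcon
  have hm0 : 0 < m := by omega
  have hbad : ∀ i, (univ.filter fun d : Fin n → Fin m => d i ∈ τ i d).card * m = m ^ n * s := by
    intro i
    have e1 : (univ.filter fun p : (Fin n → Fin m) × Fin m => p.2 ∈ τ i p.1).card = m ^ n * s := by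
      rw [Finset.card_filter, Fintype.sum_prod_type]
      simp [hc]
    have hup : ∀ (d : Fin n → Fin m) x, τ i (Function.update d i x) = τ i d := by
      intro d x
      refine hl i _ _ fun j hj => ?_
      simp [Function.update_of_ne hj]
    have e2 : (univ.filter fun p : (Fin n → Fin m) × Fin m => p.2 ∈ τ i p.1).card =
        ((univ.filter fun d : Fin n → Fin m => d i ∈ τ i d) ×ˢ (univ : Finset (Fin m))).card := by
      apply Finset.card_nbij' (fun p => (Function.update p.1 i p.2, p.1 i))
        (fun p => (Function.update p.1 i p.2, p.1 i))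
      · rintro ⟨d, x⟩ hp
        simp only [Finset.coe_filter, Finset.mem_univ, true_and, Set.mem_ofPred_eq] at hp
        simp [hup, hp]
      · rintro ⟨d, x⟩ hp
        simp at hp
        simp [hup, hp]
      · rintro ⟨d, x⟩ _
        simp
      · rintro ⟨d, x⟩ _
        simp
    rw [e1, Finset.card_product, Finset.card_univ, Fintype.card_fin] at e2
    exact e2.symm
  have h1 : m ^ n ≤ ∑ i : Fin n, (univ.filter fun d : Fin n → Fin m => d i ∈ τ i d).card := by
    have h2 : (univ : Finset (Fin n → Fin m)) ⊆
        univ.biUnion fun i => univ.filter fun d : Fin n → Fin m => d i ∈ τ i d := by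
      intro d _
      obtain ⟨i, hi⟩ := hcon d
      exact Finset.mem_biUnion.mpr ⟨i, Finset.mem_univ _, by simpa using hi⟩
    calc m ^ n = (univ : Finset (Fin n → Fin m)).card := by simp
      _ ≤ _ := (Finset.card_le_card h2).trans Finset.card_biUnion_le
  have h3 : m ^ n * m ≤ n * (m ^ n * s) := by
    calc m ^ n * m ≤ (∑ i : Fin n, (univ.filter fun d : Fin n → Fin m => d i ∈ τ i d).card) * m :=
          Nat.mul_le_mul_right _ h1
      _ = n * (m ^ n * s) := by
          rw [Finset.sum_mul]
          simp [hbad]
  have h4 : m ^ n * m ≤ m ^ n * (n * s) := by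
    calc m ^ n * m ≤ n * (m ^ n * s) := h3
      _ = m ^ n * (n * s) := by ring
  have h5 := Nat.le_of_mul_le_mul_left h4 (pow_pos hm0 n)
  omega

theorem not_win {k s m : ℕ} (hk : 2 ≤ k) (hm : k * s < m) :
    ¬ Winnable (Ear k) (fun _ => s) (fun _ => m) := by
  classical
  rintro ⟨σ, hc, hl, hw⟩
  have hm0 : 0 < m := by omega
  let G : Fin m → Finset (Fin m) := fun x => σ (.inr false) (fun _ => x)
  have hX : ∃ γ : Fin m, s < (univ.filter fun x : Fin m => γ ∉ G x).card := by
    by_contra hcon
    push Not at hcon
    have h1 : ∑ γ : Fin m, (univ.filter fun x : Fin m => γ ∉ G x).card = m * (m - s) := by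
      simp only [Finset.card_filter]
      rw [Finset.sum_comm]
      have h3 : ∀ x, (∑ γ : Fin m, if γ ∉ G x then 1 else 0) = m - s := by
        intro x
        have h4 : (univ.filter fun γ : Fin m => γ ∉ G x) = (G x)ᶜ := by
          ext γ; simp
        rw [← Finset.card_filter, h4, Finset.card_compl, Fintype.card_fin, hc]
      rw [Finset.sum_congr rfl (fun x _ => h3 x)]
      simp
    have h2 : ∑ γ : Fin m, (univ.filter fun x : Fin m => γ ∉ G x).card ≤ ∑ _γ : Fin m, s :=
      Finset.sum_le_sum fun γ _ => hcon γ
    rw [h1] at h2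
    simp only [Finset.sum_const, Finset.card_univ, Fintype.card_fin, smul_eq_mul] at h2
    have h5 := Nat.le_of_mul_le_mul_left h2 hm0
    have h6 : 2 * s ≤ k * s := Nat.mul_le_mul_right _ hk
    omega
  obtain ⟨γ, hγ⟩ := hX
  let τ : Fin k → (Fin k → Fin m) → Finset (Fin m) := fun i d =>
    σ (.inl i) (Sum.elim d (fun _ => γ))
  obtain ⟨d, hd⟩ := exists_avoid hm τ (fun i d => hc _ _) (by
    intro i d d' h
    refine hl _ _ _ fun u hu => ?_
    rcases u with j | b
    · exact h j (Ne.symm hu)
    · rfl)
  let H : Finset (Fin m) := σ (.inr true) (Sum.elim d (fun _ => γ))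
  have hx : ∃ x, x ∈ (univ.filter fun x : Fin m => γ ∉ G x) \ H := by
    by_contra hcon
    push Not at hcon
    have h1 : (univ.filter fun x : Fin m => γ ∉ G x) \ H = ∅ :=
      Finset.eq_empty_of_forall_notMem hcon
    rw [Finset.sdiff_eq_empty_iff_subset] at h1
    have h2 := Finset.card_le_card h1
    have h3 : H.card = s := hc _ _
    omega
  obtain ⟨x, hx⟩ := hx
  rw [Finset.mem_sdiff, Finset.mem_filter] at hx
  let c : Fin k ⊕ Bool → Fin m := Sum.elim d (fun b => if b then x else γ)
  obtain ⟨v, hv⟩ := hw c
  rcases v with i | b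
  · have h1 : σ (.inl i) c = τ i d := by
      refine hl _ _ _ fun u hu => ?_
      rcases u with j | b
      · rfl
      · cases b
        · rfl
        · exact hu.elim
    rw [h1] at hv
    exact hd i hv
  · cases b
    · have h1 : σ (.inr false) c = G x := by
        refine hl _ _ _ fun u hu => ?_
        rcases u with j | b
        · exact hu.elim
        · cases b
          · exact hu.elim
          · rfl
      rw [h1] at hv
      exact hx.1.2 hv
    · have h1 : σ (.inr true) c = H := by
        refine hl _ _ _ fun u hu => ?_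
        rcases u with j | b
        · rfl
        · cases b
          · exact hu.elim
          · exact hu.elim
      rw [h1] at hv
      exact hx.2 hv

theorem win {k s l : ℕ} (hk : 1 ≤ k) (hs : 1 ≤ s) (hl : s ≤ l) :
    Winnable (Ear k) (fun _ => s) (Sum.elim (fun _ => k * s) (fun _ => l)) := by
  classical
  have : NeZero (k * s) := ⟨by positivity⟩
  let h : Fin k ⊕ Bool → ℕ := Sum.elim (fun _ => k * s) (fun _ => l)
  let cl : (∀ u, Fin (h u)) → Fin k → Fin (k * s) := fun c j => c (.inl j)
  let rest : (∀ u, Fin (h u)) → Fin k → Fin (k * s) := fun c i =>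
    ∑ j ∈ univ.erase i, cl c j
  let σ : ∀ v, (∀ u, Fin (h u)) → Finset (Fin (h v)) := fun v => match v with
    | .inl i => fun c => ((univ : Finset (Fin s)).image fun r =>
        finProdFinEquiv (i, r) - rest c i : Finset (Fin (k * s)))
    | .inr _ => fun _ => ((univ : Finset (Fin s)).image (Fin.castLE hl) : Finset (Fin l))
  refine ⟨σ, ?_, ?_, ?_⟩
  · rintro (i | b) c
    · change ((univ : Finset (Fin s)).image fun r =>
        finProdFinEquiv (i, r) - rest c i).card = s
      rw [Finset.card_image_of_injective, Finset.card_univ, Fintype.card_fin]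
      intro r r' hr
      have h1 := sub_left_injective hr
      have h2 := finProdFinEquiv.injective h1
      simpa using h2
    · change ((univ : Finset (Fin s)).image (Fin.castLE hl)).card = s
      rw [Finset.card_image_of_injective _ (Fin.castLE_injective hl), Finset.card_univ,
        Fintype.card_fin]
  · rintro (i | b) c c' hcc
    · have h1 : rest c i = rest c' i := by
        refine Finset.sum_congr rfl fun j hj => ?_
        exact hcc (.inl j) (by
          have := Finset.ne_of_mem_erase hj
          exact this.symm)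
      change ((univ : Finset (Fin s)).image fun r => finProdFinEquiv (i, r) - rest c i) =
        ((univ : Finset (Fin s)).image fun r => finProdFinEquiv (i, r) - rest c' i)
      rw [h1]
    · rfl
  · intro c
    let T : Fin (k * s) := ∑ j : Fin k, cl c j
    refine ⟨.inl (finProdFinEquiv.symm T).1, ?_⟩
    change c (.inl (finProdFinEquiv.symm T).1) ∈ ((univ : Finset (Fin s)).image fun r =>
        finProdFinEquiv ((finProdFinEquiv.symm T).1, r) - rest c (finProdFinEquiv.symm T).1)
    refine Finset.mem_image.mpr ⟨(finProdFinEquiv.symm T).2, Finset.mem_univ _, ?_⟩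
    have h1 : finProdFinEquiv ((finProdFinEquiv.symm T).1, (finProdFinEquiv.symm T).2) = T :=
      finProdFinEquiv.apply_symm_apply T
    rw [h1]
    have h2 : cl c (finProdFinEquiv.symm T).1 + rest c (finProdFinEquiv.symm T).1 = T :=
      Finset.add_sum_erase univ (cl c) (Finset.mem_univ _)
    exact sub_eq_of_eq_add h2.symm

theorem reach {k : ℕ} (hk : 2 ≤ k) (u v : Fin k ⊕ Bool) :
    Relation.ReflTransGen (Ear k) u v := by
  let o : Fin k := ⟨0, by omega⟩
  have h1 : ∀ u, Relation.ReflTransGen (Ear k) u (.inl o) := by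
    rintro (i | b)
    · by_cases h : i = o
      · rw [h]
      · exact Relation.ReflTransGen.single (show i ≠ o from h)
    · have h2 : Relation.ReflTransGen (Ear k) (.inr true) (.inl o) :=
        Relation.ReflTransGen.single (show o.val = 0 from rfl)
      cases b
      · exact Relation.ReflTransGen.head (show Ear k (.inr false) (.inr true) from trivial) h2
      · exact h2
  have h2 : ∀ v, Relation.ReflTransGen (Ear k) (.inl o) v := by
    rintro (i | b)
    · by_cases h : o = i
      · rw [h]
      · exact Relation.ReflTransGen.single (show o ≠ i from h)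
    · have h2 : Relation.ReflTransGen (Ear k) (.inl o) (.inr false) :=
        Relation.ReflTransGen.single (show o.val = 0 from rfl)
      cases b
      · exact h2
      · exact h2.tail (show Ear k (.inr false) (.inr true) from trivial)
  exact (h1 u).trans (h2 v)

theorem not_redundant {k : ℕ} (hk : 2 ≤ k) (S : Set (Fin k ⊕ Bool)) (hS : S.Nonempty) :
    ¬ Redundant (Ear k) Set.univ S := by
  rintro ⟨_, hR⟩
  let o : Fin k := ⟨0, by omega⟩
  obtain ⟨v, hv⟩ := hS
  rcases v with i | b
  · have : Nontrivial (Fin k) := Fin.nontrivial_iff_two_le.mpr hk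
    obtain ⟨j, hj⟩ := exists_ne i
    have h1 := hR (.inl i) hv (.inl j) trivial (show i ≠ j from hj.symm) (.inl j) trivial
      ⟨.inl i, hv, (show j ≠ i from hj)⟩
    exact (show j ≠ j from h1) rfl
  · cases b
    · exact hR (.inr false) hv (.inr true) trivial (show True from trivial) (.inl o) trivial
        ⟨.inr false, hv, (show o.val = 0 from rfl)⟩
    · exact hR (.inr true) hv (.inl o) trivial (show o.val = 0 from rfl) (.inr false) trivial
        ⟨.inr true, hv, (show True from trivial)⟩

theorem reduced_eq {k : ℕ} (hk : 2 ≤ k) (W : Set (Fin k ⊕ Bool)) (hW : Reduced (Ear k) W) :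
    W = Set.univ := by
  induction hW with
  | base => rfl
  | step W S _ hR ih =>
    subst ih
    rcases S.eq_empty_or_nonempty with h | h
    · rw [h, Set.sdiff_empty]
    · exact absurd hR (not_redundant hk S h)

/-- For every `k ≥ 2` there is a loopless strongly connected nontrivial digraph `D` on `k + 2`
vertices (even without nonempty redundant sets) such that `μ_s(D) = k s` for all `s ≥ 1`, so that
the fractional hat guessing number of `D` is `k`, although for every `L > k` there is a winnable
Latvian game `(D, h)` with `h ≥ k` everywhere and `h v = L` for some vertex `v`. -/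
theorem result (k : ℕ) (hk : 2 ≤ k) :
    ∃ (V : Type) (_ : Fintype V) (E : V → V → Prop),
      Fintype.card V = k + 2 ∧
      (∀ v, ¬ E v v) ∧ (∀ u v, Relation.ReflTransGen E u v) ∧
      (∀ S : Set V, S.Nonempty → ¬ Redundant E Set.univ S) ∧ ¬ IsTrivial E ∧
      (∀ L : ℕ, k < L → ∃ h : V → ℕ,
        (∀ v, k ≤ h v) ∧ (∃ v, h v = L) ∧ Winnable E (fun _ => 1) h) ∧
      (∀ s : ℕ, 1 ≤ s →
        IsGreatest {m : ℕ | s < m ∧ Winnable E (fun _ => s) (fun _ => m)} (k * s)) ∧
      muHat E = k := by
  have hG : ∀ s : ℕ, 1 ≤ s →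
      IsGreatest {m : ℕ | s < m ∧ Winnable (Ear k) (fun _ => s) (fun _ => m)} (k * s) := by
    intro s hs
    refine ⟨⟨by nlinarith, ?_⟩, ?_⟩
    · have h1 := win (k := k) (s := s) (l := k * s) (by omega) hs (by nlinarith)
      have h2 : (Sum.elim (fun _ : Fin k => k * s) (fun _ : Bool => k * s)) = fun _ => k * s := by
        funext v; cases v <;> rfl
      rwa [h2] at h1
    · rintro m ⟨_, hm⟩
      by_contra hcon
      exact not_win hk (not_le.mp hcon) hm
  refine ⟨Fin k ⊕ Bool, inferInstance, Ear k, by simp, ?_, reach hk, not_redundant hk, ?_, ?_,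
    hG, ?_⟩
  · rintro (i | b)
    · exact fun h => h rfl
    · cases b <;> exact fun h => h
  · rintro ⟨W, hW, hE⟩
    have h1 := reduced_eq hk W hW
    subst h1
    have hmono : ∀ u v, Relation.ReflTransGen
        (fun a b => a ∈ Set.univ ∧ b ∈ Set.univ ∧ Ear k a b) u v := by
      intro u v
      exact Relation.ReflTransGen.mono (fun a b hab => ⟨trivial, trivial, hab⟩) _ _ (reach hk u v)
    exact hE (.inr false) trivial (.inl ⟨0, by omega⟩) trivial (by simp) (hmono _ _) (hmono _ _)
  · intro L hL
    refine ⟨Sum.elim (fun _ => k) (fun _ => L), ?_, ⟨.inr true, rfl⟩, ?_⟩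
    · rintro (i | b)
      · exact le_rfl
      · exact hL.le
    · have h1 := win (k := k) (s := 1) (l := L) (by omega) le_rfl (by omega)
      rwa [mul_one] at h1
  · have hmu : ∀ s : ℕ, 1 ≤ s → mu (Ear k) s = k * s := fun s hs => (hG s hs).csSup_eq
    have hset : {r : ℝ | ∃ s : ℕ, 1 ≤ s ∧ r = (mu (Ear k) s : ℝ) / (s : ℝ)} = {(k : ℝ)} := by
      ext r
      simp only [Set.mem_ofPred_eq, Set.mem_singleton_iff]
      constructor
      · rintro ⟨s, hs, rfl⟩
        rw [hmu s hs]
        have : (0 : ℝ) < s := by exact_mod_cast hs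
        push_cast
        field_simp
      · rintro rfl
        exact ⟨1, le_rfl, by rw [hmu 1 le_rfl]; simp⟩
    rw [muHat, hset, csSup_singleton]

end Pool.Agent.Results.MP_22519f_co.EarDisproof
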